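import Mathlib

/-!
# A multi-scale concavity argument

For a monotone sequence `p : ℕ → ℝ` let `gm p r n = (p (n + r) - p n) / r`.  At one of the scales
`r = b ^ i`, `i < I`, the `b` consecutive means `gm p r (n + j r)`, `j < b`, are almost equal, in a
summed sense over `n < N`.
-/

set_option autoImplicit false

open Finset

namespace Pool.Agent.Helper99.LR

/-- The mean difference of the sequence `p` over the block `n, ..., n + r`. -/
noncomputable def gm (p : ℕ → ℝ) (r n : ℕ) : ℝ := (p (n + r) - p n) / r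

/-- The bounded increasing concave function used as potential. -/
noncomputable def phi (K t : ℝ) : ℝ := t / (K + t)

theorem phi_nonneg {K t : ℝ} (hK : 0 < K) (ht : 0 ≤ t) : 0 ≤ phi K t := by
  unfold phi; positivity

theorem phi_le_one {K t : ℝ} (hK : 0 < K) (ht : 0 ≤ t) : phi K t ≤ 1 := by
  unfold phi
  rw [div_le_one (by positivity)]
  linarith

theorem gm_nonneg {p : ℕ → ℝ} (hp : Monotone p) (r n : ℕ) : 0 ≤ gm p r n := by
  unfold gm
  have := hp (Nat.le_add_right n r)
  apply div_nonneg (by linarith) (Nat.cast_nonneg _)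

theorem gm_mul (p : ℕ → ℝ) {b r : ℕ} (hb : 0 < b) (hr : 0 < r) (n : ℕ) :
    gm p (b * r) n = (∑ j ∈ range b, gm p r (n + j * r)) / b := by
  have hb0 : (b : ℝ) ≠ 0 := by exact_mod_cast hb.ne'
  have hr0 : (r : ℝ) ≠ 0 := by exact_mod_cast hr.ne'
  have h1 : ∑ j ∈ range b, gm p r (n + j * r) = (p (n + b * r) - p n) / r := by
    unfold gm
    rw [← Finset.sum_div]
    congr 1
    have h2 := Finset.sum_range_sub (fun j => p (n + j * r)) b
    simp only [zero_mul, add_zero] at h2
    rw [← h2]
    apply Finset.sum_congr rfl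
    intro j _
    congr 2
    ring
  rw [h1]
  unfold gm
  push_cast
  field_simp

/-- The defect in Jensen's inequality for `phi`. -/
theorem defect {K : ℝ} (hK : 0 < K) {b : ℕ} (hb : 0 < b) (g : ℕ → ℝ) (hg : ∀ j, 0 ≤ g j)
    {m : ℝ} (hm : m = (∑ j ∈ range b, g j) / b) :
    phi K m - (∑ j ∈ range b, phi K (g j)) / b =
      (∑ j ∈ range b, K * (m - g j) ^ 2 / ((K + g j) * (K + m) ^ 2)) / b := by
  have hb0 : (b : ℝ) ≠ 0 := by exact_mod_cast hb.ne'
  have hm0 : 0 ≤ m := by
    rw [hm]
    apply div_nonneg (Finset.sum_nonneg fun j _ => hg j) (Nat.cast_nonneg _)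
  have h0 : ∑ j ∈ range b, (m - g j) = 0 := by
    rw [Finset.sum_sub_distrib, Finset.sum_const, Finset.card_range, nsmul_eq_mul, hm]
    field_simp
    ring
  have h1 : ∀ j ∈ range b, phi K m - phi K (g j) =
      K * (m - g j) ^ 2 / ((K + g j) * (K + m) ^ 2) + K / (K + m) ^ 2 * (m - g j) := by
    intro j _
    have h2 := hg j
    have h3 : K + g j ≠ 0 := by positivity
    have h4 : K + m ≠ 0 := by positivity
    unfold phi
    field_simp
    ring
  have h2 : phi K m = (∑ j ∈ range b, phi K m) / b := by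
    rw [Finset.sum_const, Finset.card_range, nsmul_eq_mul]
    field_simp
  calc phi K m - (∑ j ∈ range b, phi K (g j)) / b
      = (∑ j ∈ range b, (phi K m - phi K (g j))) / b := by
        rw [Finset.sum_sub_distrib, sub_div, ← h2]
    _ = _ := by
        rw [Finset.sum_congr rfl h1, Finset.sum_add_distrib, ← Finset.mul_sum, h0, mul_zero,
          add_zero]

/-- The defect at scale `r` (factor `b`) at the place `n`. -/
noncomputable def Df (p : ℕ → ℝ) (K : ℝ) (b r n : ℕ) : ℝ :=
  phi K (gm p (b * r) n) - (∑ j ∈ range b, phi K (gm p r (n + j * r))) / b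

theorem Df_eq {p : ℕ → ℝ} (hp : Monotone p) {K : ℝ} (hK : 0 < K) {b r : ℕ} (hb : 0 < b)
    (hr : 0 < r) (n : ℕ) : Df p K b r n =
      (∑ j ∈ range b, K * (gm p (b * r) n - gm p r (n + j * r)) ^ 2 /
        ((K + gm p r (n + j * r)) * (K + gm p (b * r) n) ^ 2)) / b :=
  defect hK hb (fun j => gm p r (n + j * r)) (fun j => gm_nonneg hp _ _) (gm_mul p hb hr n)

theorem Df_nonneg {p : ℕ → ℝ} (hp : Monotone p) {K : ℝ} (hK : 0 < K) {b r : ℕ} (hb : 0 < b)
    (hr : 0 < r) (n : ℕ) : 0 ≤ Df p K b r n := by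
  rw [Df_eq hp hK hb hr]
  apply div_nonneg _ (Nat.cast_nonneg _)
  apply Finset.sum_nonneg
  intro j _
  have h1 := gm_nonneg hp r (n + j * r)
  have h2 := gm_nonneg hp (b * r) n
  positivity

/-- Places at which the `b` means are not `ε`-close have a large defect. -/
theorem Df_large {p : ℕ → ℝ} (hp : Monotone p) {K T ε : ℝ} (hK : 0 < K) (hε : 0 ≤ ε) {b r : ℕ}
    (hb : 0 < b) (hr : 0 < r) (n : ℕ) (h1 : K ≤ gm p (b * r) n) (h2 : gm p (b * r) n ≤ T)
    {j : ℕ} (hj : j < b) (h3 : ε * gm p (b * r) n < |gm p r (n + j * r) - gm p (b * r) n|) :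
    K * ε ^ 2 / (4 * b * (b + 1) * T) ≤ Df p K b r n := by
  have hb0 : (0 : ℝ) < b := by exact_mod_cast hb
  set m : ℝ := gm p (b * r) n with hm
  have hm0 : 0 < m := by linarith
  have hT : 0 < T := by linarith
  have hsum : (b : ℝ) * m = ∑ i ∈ range b, gm p r (n + i * r) := by
    rw [hm, gm_mul p hb hr n]
    field_simp
  have hgj : gm p r (n + j * r) ≤ b * m := by
    rw [hsum]
    exact Finset.single_le_sum (f := fun j => gm p r (n + j * r))
      (fun i _ => gm_nonneg hp r (n + i * r)) (Finset.mem_range.mpr hj)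
  have hgj0 := gm_nonneg hp r (n + j * r)
  have h4 : (ε * m) ^ 2 ≤ (m - gm p r (n + j * r)) ^ 2 := by
    have h5 : (m - gm p r (n + j * r)) ^ 2 = |gm p r (n + j * r) - m| ^ 2 := by
      rw [sq_abs]; ring
    rw [h5]
    apply pow_le_pow_left₀ (by positivity) h3.le
  rw [Df_eq hp hK hb hr, ← hm]
  have h6 : K * (ε * m) ^ 2 / (((b + 1) * m) * (2 * m) ^ 2) ≤
      K * (m - gm p r (n + j * r)) ^ 2 / ((K + gm p r (n + j * r)) * (K + m) ^ 2) := by
    apply div_le_div₀ (by positivity)
    · exact mul_le_mul_of_nonneg_left h4 hK.le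
    · positivity
    · apply mul_le_mul
      · linarith
      · apply pow_le_pow_left₀ (by positivity)
        linarith
      · positivity
      · positivity
  have h7 : K * (m - gm p r (n + j * r)) ^ 2 / ((K + gm p r (n + j * r)) * (K + m) ^ 2) ≤
      ∑ i ∈ range b, K * (m - gm p r (n + i * r)) ^ 2 /
        ((K + gm p r (n + i * r)) * (K + m) ^ 2) := by
    apply Finset.single_le_sum (f := fun i => K * (m - gm p r (n + i * r)) ^ 2 /
        ((K + gm p r (n + i * r)) * (K + m) ^ 2)) _ (Finset.mem_range.mpr hj)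
    intro i _
    have := gm_nonneg hp r (n + i * r)
    positivity
  have h8 : K * ε ^ 2 / (4 * b * (b + 1) * T) ≤
      (K * (ε * m) ^ 2 / (((b + 1) * m) * (2 * m) ^ 2)) / b := by
    have h9 : (K * (ε * m) ^ 2 / (((b + 1) * m) * (2 * m) ^ 2)) / b =
        K * ε ^ 2 / (4 * b * (b + 1) * m) := by
      field_simp
      ring
    rw [h9]
    apply div_le_div_of_nonneg_left (by positivity) (by positivity)
    apply mul_le_mul_of_nonneg_left h2 (by positivity)
  refine h8.trans ?_
  exact div_le_div_of_nonneg_right (h6.trans h7) hb0.le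

theorem shift_sum (f : ℕ → ℝ) (hf0 : ∀ n, 0 ≤ f n) (hf1 : ∀ n, f n ≤ 1) (N s : ℕ) :
    ∑ n ∈ range N, f n - s ≤ ∑ n ∈ range N, f (n + s) := by
  have h1 : ∑ n ∈ range (N + s), f n = ∑ n ∈ range s, f n + ∑ n ∈ range N, f (n + s) := by
    rw [add_comm N s, Finset.sum_range_add]
    congr 1
    apply Finset.sum_congr rfl
    intro n _
    rw [add_comm]
  have h2 : ∑ n ∈ range N, f n ≤ ∑ n ∈ range (N + s), f n := by
    apply Finset.sum_le_sum_of_subset_of_nonneg
    · apply Finset.range_subset_range.mpr; omega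
    · intro n _ _; exact hf0 n
  have h3 : ∑ n ∈ range s, f n ≤ s := by
    calc ∑ n ∈ range s, f n ≤ ∑ n ∈ range s, (1 : ℝ) := Finset.sum_le_sum fun n _ => hf1 n
      _ = s := by simp
  linarith

theorem sum_Df_le {p : ℕ → ℝ} (hp : Monotone p) {K : ℝ} (hK : 0 < K) {b r : ℕ} (hb : 0 < b)
    (N : ℕ) : ∑ n ∈ range N, Df p K b r n ≤
      ∑ n ∈ range N, phi K (gm p (b * r) n) - ∑ n ∈ range N, phi K (gm p r n) + b * r := by
  have hb0 : (0 : ℝ) < b := by exact_mod_cast hb
  unfold Df
  rw [Finset.sum_sub_distrib, ← Finset.sum_div, Finset.sum_comm]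
  have h1 : ∀ j ∈ range b, ∑ n ∈ range N, phi K (gm p r n) - b * r ≤
      ∑ n ∈ range N, phi K (gm p r (n + j * r)) := by
    intro j hj
    have h2 := shift_sum (fun n => phi K (gm p r n)) (fun n => phi_nonneg hK (gm_nonneg hp _ _))
      (fun n => phi_le_one hK (gm_nonneg hp _ _)) N (j * r)
    have h3 : ((j * r : ℕ) : ℝ) ≤ b * r := by
      rw [Finset.mem_range] at hj
      have : j * r ≤ b * r := Nat.mul_le_mul_right _ hj.le
      exact_mod_cast this
    linarith
  have h4 := Finset.sum_le_sum h1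
  rw [Finset.sum_const, Finset.card_range, nsmul_eq_mul] at h4
  have h5 : ∑ n ∈ range N, phi K (gm p r n) - b * r ≤
      (∑ j ∈ range b, ∑ n ∈ range N, phi K (gm p r (n + j * r))) / b := by
    rw [le_div_iff₀ hb0]
    linarith
  linarith

/-- The total defect over the `I` scales `s * b ^ i`. -/
theorem sum_scales {p : ℕ → ℝ} (hp : Monotone p) {K : ℝ} (hK : 0 < K) {b : ℕ} (hb : 0 < b)
    {I N s : ℕ} (hN : I * (b ^ I * s) ≤ N) :
    ∑ i ∈ range I, ∑ n ∈ range N, Df p K b (b ^ i * s) n ≤ 2 * N := by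
  have h1 : ∀ J : ℕ, ∑ i ∈ range J, ∑ n ∈ range N, Df p K b (b ^ i * s) n ≤
      ∑ n ∈ range N, phi K (gm p (b ^ J * s) n) - ∑ n ∈ range N, phi K (gm p (b ^ 0 * s) n) +
        ∑ i ∈ range J, (b : ℝ) * (b ^ i * s : ℕ) := by
    intro J
    induction J with
    | zero => simp
    | succ J ih =>
      rw [Finset.sum_range_succ, Finset.sum_range_succ _ J]
      have h2 := sum_Df_le hp hK (r := b ^ J * s) hb N
      rw [pow_succ' b J, mul_assoc]
      linarith
  have h2 : ∑ n ∈ range N, phi K (gm p (b ^ I * s) n) ≤ N := by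
    calc _ ≤ ∑ n ∈ range N, (1 : ℝ) :=
          Finset.sum_le_sum fun n _ => phi_le_one hK (gm_nonneg hp _ _)
      _ = N := by simp
  have h3 : 0 ≤ ∑ n ∈ range N, phi K (gm p (b ^ 0 * s) n) :=
    Finset.sum_nonneg fun n _ => phi_nonneg hK (gm_nonneg hp _ _)
  have h4 : ∑ i ∈ range I, (b : ℝ) * (b ^ i * s : ℕ) ≤ N := by
    have h5 : ∀ i ∈ range I, (b : ℝ) * (b ^ i * s : ℕ) ≤ (b ^ I * s : ℕ) := by
      intro i hi
      rw [Finset.mem_range] at hi
      have h6 : b * (b ^ i * s) ≤ b ^ I * s := by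
        rw [← mul_assoc, ← pow_succ']
        exact Nat.mul_le_mul_right _ (Nat.pow_le_pow_right hb hi)
      exact_mod_cast h6
    calc _ ≤ ∑ i ∈ range I, ((b ^ I * s : ℕ) : ℝ) := Finset.sum_le_sum h5
      _ = ((I * (b ^ I * s) : ℕ) : ℝ) := by
        rw [Finset.sum_const, Finset.card_range, nsmul_eq_mul]; push_cast; ring
      _ ≤ N := by exact_mod_cast hN
  linarith [h1 I]

/-- One of the `I` scales `s * b ^ i` has a small total defect. -/
theorem exists_scale {p : ℕ → ℝ} (hp : Monotone p) {K : ℝ} (hK : 0 < K) {b : ℕ} (hb : 0 < b)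
    {I : ℕ} (hI : 0 < I) {N s : ℕ} (hN : I * (b ^ I * s) ≤ N) :
    ∃ i < I, ∑ n ∈ range N, Df p K b (b ^ i * s) n ≤ 2 * N / I := by
  have hI0 : (0 : ℝ) < I := by exact_mod_cast hI
  have h5 : ∑ i ∈ range I, ∑ n ∈ range N, Df p K b (b ^ i * s) n ≤
      ∑ i ∈ range I, (2 * (N : ℝ) / I) := by
    rw [Finset.sum_const, Finset.card_range, nsmul_eq_mul]
    have h6 : (I : ℝ) * (2 * N / I) = 2 * N := by field_simp
    rw [h6]
    exact sum_scales hp hK hb hN
  obtain ⟨i, hi, h6⟩ := Finset.exists_le_of_sum_le (Finset.nonempty_range_iff.mpr hI.ne') h5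
  exact ⟨i, Finset.mem_range.mp hi, h6⟩

/-- Large means are rare. -/
theorem large_card' {p : ℕ → ℝ} (hp : Monotone p) {r : ℕ} (hr : 0 < r) (N : ℕ) (T : ℝ) :
    (((range N).filter (fun n => T < gm p r n)).card : ℝ) * T ≤ p (N + r) - p 0 := by
  classical
  have hr0 : (0 : ℝ) < r := by exact_mod_cast hr
  have h1 : (((range N).filter (fun n => T < gm p r n)).card : ℝ) * T ≤
      ∑ n ∈ range N, gm p r n := by
    calc _ = ∑ n ∈ (range N).filter (fun n => T < gm p r n), T := by
          rw [Finset.sum_const, nsmul_eq_mul]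
      _ ≤ ∑ n ∈ (range N).filter (fun n => T < gm p r n), gm p r n := by
          apply Finset.sum_le_sum
          intro n hn
          exact (Finset.mem_filter.mp hn).2.le
      _ ≤ _ := by
          apply Finset.sum_le_sum_of_subset_of_nonneg (Finset.filter_subset _ _)
          intro n _ _
          exact gm_nonneg hp r n
  have h2 : ∑ n ∈ range N, gm p r n = (∑ j ∈ range r, (p (N + j) - p j)) / r := by
    unfold gm
    rw [← Finset.sum_div]
    congr 1
    have h3 : ∀ n ∈ range N, p (n + r) - p n = ∑ j ∈ range r, (p (n + 1 + j) - p (n + j)) := by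
      intro n _
      have h4 := Finset.sum_range_sub (fun j => p (n + j)) r
      simp only [add_zero] at h4
      rw [← h4]
      apply Finset.sum_congr rfl
      intro j _
      congr 2
      ring
    rw [Finset.sum_congr rfl h3, Finset.sum_comm]
    apply Finset.sum_congr rfl
    intro j _
    have h4 := Finset.sum_range_sub (fun n => p (n + j)) N
    simp only [zero_add] at h4
    rw [← h4]
  have h3 : ∑ j ∈ range r, (p (N + j) - p j) ≤ r * (p (N + r) - p 0) := by
    calc _ ≤ ∑ j ∈ range r, (p (N + r) - p 0) := by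
          apply Finset.sum_le_sum
          intro j hj
          rw [Finset.mem_range] at hj
          have h4 := hp (show N + j ≤ N + r by omega)
          have h5 := hp (Nat.zero_le j)
          linarith
      _ = _ := by rw [Finset.sum_const, Finset.card_range, nsmul_eq_mul]
  refine h1.trans ?_
  rw [h2, div_le_iff₀ hr0]
  linarith

theorem large_card {p : ℕ → ℝ} (hp : Monotone p) (hp0 : 0 ≤ p 0) {r : ℕ} (hr : 0 < r) (N : ℕ)
    (T : ℝ) :
    (((range N).filter (fun n => T < gm p r n)).card : ℝ) * T ≤ p (N + r) := by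
  have := large_card' hp hr N T
  linarith

/-- A good place at one of the scales, in a finite window. -/
theorem det {p : ℕ → ℝ} (hp : Monotone p) {K T ε Len : ℝ} (hK : 0 < K) (hT : 0 < T) (hε : 0 < ε)
    {b I N : ℕ} (hb : 0 < b) (hI : 0 < I) (hIN : I * b ^ I ≤ N)
    (hlen : p (N + b ^ I) - p 0 ≤ Len)
    (hsm : ∑ i ∈ range I, (((range N).filter (fun n => gm p (b * b ^ i) n < K)).card : ℝ) ≤
      I * N / 4)
    (hl : Len ≤ N / 4 * T) (hd : 2 * (4 * b * (b + 1) * T / (K * ε ^ 2)) ≤ I / 4) :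
    ∃ i < I, ∃ n < N, K ≤ gm p (b * b ^ i) n ∧ gm p (b * b ^ i) n ≤ T ∧
      ∀ j < b, |gm p (b ^ i) (n + j * b ^ i) - gm p (b * b ^ i) n| ≤
        ε * gm p (b * b ^ i) n := by
  classical
  by_contra hcon
  push Not at hcon
  have hb0 : (0 : ℝ) < b := by exact_mod_cast hb
  have hI0 : (0 : ℝ) < I := by exact_mod_cast hI
  have hbI : 0 < b ^ I := by positivity
  have hN0 : 0 < N := lt_of_lt_of_le (Nat.mul_pos hI hbI) hIN
  have hN0r : (0 : ℝ) < N := by exact_mod_cast hN0
  set A : ℕ → Finset ℕ := fun i => (range N).filter (fun n => gm p (b * b ^ i) n < K) with hA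
  set B : ℕ → Finset ℕ := fun i => (range N).filter (fun n => T < gm p (b * b ^ i) n) with hB
  set c : ℝ := K * ε ^ 2 / (4 * b * (b + 1) * T) with hc
  have hc0 : 0 < c := by positivity
  set E : ℕ → Finset ℕ := fun i => (range N).filter (fun n => c ≤ Df p K b (b ^ i) n) with hE
  have hcov : ∀ i ∈ range I, (N : ℝ) ≤ (A i).card + (B i).card + (E i).card := by
    intro i hi
    rw [Finset.mem_range] at hi
    have h1 : range N ⊆ (A i ∪ B i) ∪ E i := by
      intro n hn
      by_contra hcc
      rw [Finset.mem_union, Finset.mem_union, not_or, not_or] at hcc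
      simp only [hA, hB, hE, Finset.mem_filter, not_and] at hcc
      obtain ⟨⟨h1, h2⟩, h3⟩ := hcc
      have h1' := h1 hn
      have h2' := h2 hn
      have h3' := h3 hn
      push Not at h1' h2'
      obtain ⟨j, hj, hj2⟩ := hcon i hi n (Finset.mem_range.mp hn) h1' h2'
      exact h3' (Df_large hp hK hε.le hb (by positivity) n h1' h2' hj hj2)
    have h2 := (Finset.card_le_card h1).trans ((Finset.card_union_le _ _).trans
      (Nat.add_le_add_right (Finset.card_union_le _ _) _))
    rw [Finset.card_range] at h2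
    exact_mod_cast h2
  have h1 := Finset.sum_le_sum hcov
  rw [Finset.sum_const, Finset.card_range, nsmul_eq_mul, Finset.sum_add_distrib,
    Finset.sum_add_distrib] at h1
  have h2 : ∑ i ∈ range I, ((B i).card : ℝ) ≤ I * N / 4 := by
    have h3 : ∀ i ∈ range I, ((B i).card : ℝ) ≤ N / 4 := by
      intro i hi
      rw [Finset.mem_range] at hi
      have h4 := large_card' hp (r := b * b ^ i) (by positivity) N T
      have h5 : p (N + b * b ^ i) ≤ p (N + b ^ I) := by
        apply hp
        have : b * b ^ i ≤ b ^ I := by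
          rw [← pow_succ']
          exact Nat.pow_le_pow_right hb hi
        omega
      have h6 : ((B i).card : ℝ) * T ≤ N / 4 * T := by
        refine h4.trans ?_
        linarith
      exact le_of_mul_le_mul_right h6 hT
    have h4 := Finset.sum_le_sum h3
    rw [Finset.sum_const, Finset.card_range, nsmul_eq_mul] at h4
    linarith
  have h3 : ∑ i ∈ range I, ((E i).card : ℝ) ≤ I * N / 4 := by
    have h4 : (∑ i ∈ range I, ((E i).card : ℝ)) * c ≤ 2 * N := by
      have h5 := sum_scales hp hK hb (I := I) (N := N) (s := 1) (by rw [mul_one]; exact hIN)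
      simp only [mul_one] at h5
      refine le_trans ?_ h5
      rw [Finset.sum_mul]
      apply Finset.sum_le_sum
      intro i _
      calc ((E i).card : ℝ) * c = ∑ n ∈ E i, c := by
            rw [Finset.sum_const, nsmul_eq_mul]
        _ ≤ ∑ n ∈ E i, Df p K b (b ^ i) n := by
            apply Finset.sum_le_sum
            intro n hn
            exact (Finset.mem_filter.mp hn).2
        _ ≤ _ := by
            apply Finset.sum_le_sum_of_subset_of_nonneg (Finset.filter_subset _ _)
            intro n _ _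
            exact Df_nonneg hp hK hb (by positivity) n
    have h5 : 2 ≤ I / 4 * c := by
      have h6 : 2 * (4 * b * (b + 1) * T / (K * ε ^ 2)) * c = 2 := by
        rw [hc]; field_simp
      calc (2 : ℝ) = 2 * (4 * b * (b + 1) * T / (K * ε ^ 2)) * c := h6.symm
        _ ≤ I / 4 * c := mul_le_mul_of_nonneg_right hd hc0.le
    have h6 : (∑ i ∈ range I, ((E i).card : ℝ)) * c ≤ (I * N / 4) * c := by
      calc _ ≤ 2 * (N : ℝ) := h4
        _ ≤ (I / 4 * c) * N := mul_le_mul_of_nonneg_right h5 hN0r.le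
        _ = _ := by ring
    exact le_of_mul_le_mul_right h6 hc0
  have h4 : 0 < (I : ℝ) * N := by positivity
  linarith

end Pool.Agent.Helper99.LR
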