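import Pool.Agent.Helper99.LR.Abs
import Pool.Agent.Helper30.Gap.Upper

/-!
# Local regularity of the primes at a bounded scale
-/

set_option autoImplicit false

open Finset Real Filter

namespace Pool.Agent.Helper99.LR

/-- The sequence of the primes (counted from `0`), as real numbers. -/
noncomputable def pr (n : ℕ) : ℝ := (Nat.nth Nat.Prime n : ℝ)

theorem pr_mono : Monotone pr := fun m n h => by
  unfold pr
  exact_mod_cast (Nat.nth_strictMono Nat.infinite_setOfPred_prime).monotone h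

theorem pr_lt {m n : ℕ} (h : m < n) : Nat.nth Nat.Prime m < Nat.nth Nat.Prime n :=
  Nat.nth_strictMono Nat.infinite_setOfPred_prime h

/-- Blocks of primes that are too short are rare. -/
theorem small_card : ∃ C : ℝ, 0 < C ∧ ∀ κ : ℝ, 0 < κ → ∀ N r : ℕ, 81 ≤ N → 0 < r →
    (((range N).filter (fun n => gm pr r n < κ * Real.log N)).card : ℝ) ≤ C * κ * N := by
  classical
  obtain ⟨C, hC, hpair⟩ := Pool.Agent.Helper30.Gap.pair_bound
  obtain ⟨C', hC', havg⟩ := Pool.Agent.Helper30.Gap.avg_G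
  refine ⟨10 * C * C', by positivity, ?_⟩
  intro κ hκ N r hN hr
  have hr0 : (0 : ℝ) < r := by exact_mod_cast hr
  have hN1 : (81 : ℝ) ≤ N := by exact_mod_cast hN
  have hN0 : (0 : ℝ) < N := by linarith
  have hlN : 1 < Real.log N := by
    rw [Real.lt_log_iff_exp_lt hN0]
    have := Real.exp_one_lt_d9
    linarith
  set L : ℝ := Real.log N with hL
  have hL0 : 0 < L := by linarith
  set M : ℕ := ⌈4 * (N : ℝ) * L⌉₊ + 1 with hM
  have hMlow : 4 * (N : ℝ) * L ≤ (M : ℝ) := by
    rw [hM]; push_cast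
    have := Nat.le_ceil (4 * (N : ℝ) * L)
    linarith
  have hMup : (M : ℝ) ≤ 5 * N * L := by
    rw [hM]; push_cast
    have := Nat.ceil_lt_add_one (a := 4 * (N : ℝ) * L) (by positivity)
    nlinarith
  have hMN : (N : ℝ) ≤ M := by nlinarith
  have hM2 : 2 ≤ M := by
    have : (2 : ℝ) ≤ M := by linarith
    exact_mod_cast this
  set H : ℕ := ⌊κ * r * L⌋₊ with hH
  have hHup : (H : ℝ) ≤ κ * r * L := Nat.floor_le (by positivity)
  set S : Finset ℕ := (range N).filter (fun n => gm pr r n < κ * L) with hS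
  -- the pairs
  have hinj : S.card * r ≤
      ((Ioc 0 H).sigma (fun h => (range M).filter (fun m => m.Prime ∧ (m + h).Prime))).card := by
    have h1 : S.card * r = (S ×ˢ Icc 1 r).card := by
      rw [Finset.card_product, Nat.card_Icc, Nat.add_sub_cancel]
    rw [h1]
    apply Finset.card_le_card_of_injOn (fun z : ℕ × ℕ =>
      (⟨Nat.nth Nat.Prime (z.1 + z.2) - Nat.nth Nat.Prime z.1, Nat.nth Nat.Prime z.1⟩ :
        Sigma fun _ : ℕ => ℕ))
    · rintro ⟨n, j⟩ hz
      rw [Finset.mem_coe, Finset.mem_product, hS, Finset.mem_filter, Finset.mem_range,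
        Finset.mem_Icc] at hz
      obtain ⟨⟨hnN, hgm⟩, hj1, hjr⟩ := hz
      simp only at hnN hgm hj1 hjr
      have h2 : Nat.nth Nat.Prime n < Nat.nth Nat.Prime (n + j) := pr_lt (by omega)
      have h3 : Nat.nth Nat.Prime (n + j) ≤ Nat.nth Nat.Prime (n + r) :=
        (Nat.nth_strictMono Nat.infinite_setOfPred_prime).monotone (by omega)
      have h3' : (Nat.nth Nat.Prime (n + j) : ℝ) ≤ Nat.nth Nat.Prime (n + r) := by
        exact_mod_cast h3
      rw [Finset.mem_coe, Finset.mem_sigma, Finset.mem_Ioc, Finset.mem_filter, Finset.mem_range]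
      simp only
      refine ⟨⟨by omega, ?_⟩, ?_, Nat.prime_nth_prime _, ?_⟩
      · rw [hH]
        apply Nat.le_floor
        rw [Nat.cast_sub h2.le]
        unfold gm pr at hgm
        rw [div_lt_iff₀ hr0] at hgm
        linarith
      · have h4 := Pool.Agent.Helper30.Gap.nth_lt hN
        refine lt_of_le_of_lt ?_ h4
        exact (Nat.nth_strictMono Nat.infinite_setOfPred_prime).monotone (by omega)
      · have h4 : Nat.nth Nat.Prime n + (Nat.nth Nat.Prime (n + j) - Nat.nth Nat.Prime n) =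
            Nat.nth Nat.Prime (n + j) := by omega
        rw [h4]
        exact Nat.prime_nth_prime _
    · rintro ⟨n, j⟩ hz ⟨n', j'⟩ hz' heq
      rw [Finset.mem_coe, Finset.mem_product, Finset.mem_Icc] at hz hz'
      simp only [Sigma.mk.injEq, heq_eq_eq] at heq
      obtain ⟨h1, h2⟩ := heq
      have h3 : n = n' := Nat.nth_injective Nat.infinite_setOfPred_prime h2
      subst h3
      simp only at hz hz'
      have h4 := pr_lt (show n < n + j by omega)
      have h5 := pr_lt (show n < n + j' by omega)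
      have h6 : Nat.nth Nat.Prime (n + j) = Nat.nth Nat.Prime (n + j') := by omega
      have h7 := Nat.nth_injective Nat.infinite_setOfPred_prime h6
      have h8 : j = j' := by omega
      rw [h8]
  have hsum : ∑ h ∈ Ioc 0 H, (((range M).filter (fun m => m.Prime ∧ (m + h).Prime)).card : ℝ) ≤
      C * M / (Real.log M) ^ 2 * (C' * ((H : ℝ) - (0 : ℕ)) + C' * Real.sqrt H) := by
    calc _ ≤ ∑ h ∈ Ioc 0 H, C * M / (Real.log M) ^ 2 * Pool.Agent.Helper30.Gap.G h := by
          apply Finset.sum_le_sum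
          intro h hh
          rw [Finset.mem_Ioc] at hh
          have := hpair M hM2 h (by omega)
          calc _ ≤ _ := this
            _ = _ := by ring
      _ = C * M / (Real.log M) ^ 2 * ∑ h ∈ Ioc 0 H, Pool.Agent.Helper30.Gap.G h := by
          rw [Finset.mul_sum]
      _ ≤ _ := by
          apply mul_le_mul_of_nonneg_left (havg 0 H (Nat.zero_le _))
          positivity
  have hfac : C * M / (Real.log M) ^ 2 ≤ C * (5 * N) / L := by
    have hlM : L ≤ Real.log M := Real.log_le_log hN0 hMN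
    calc C * M / (Real.log M) ^ 2 ≤ C * (5 * N * L) / L ^ 2 := by gcongr
      _ = C * (5 * N) / L := by
          field_simp
  have hsq : Real.sqrt H ≤ H := by
    rcases Nat.eq_zero_or_pos H with h | h
    · rw [h]; simp
    · have h1 : (1 : ℝ) ≤ H := by exact_mod_cast h
      rw [Real.sqrt_le_left (by linarith)]
      nlinarith
  have hfin : C * M / (Real.log M) ^ 2 * (C' * ((H : ℝ) - (0 : ℕ)) + C' * Real.sqrt H) ≤
      10 * C * C' * κ * N * r := by
    have h0 : (0 : ℝ) ≤ H := Nat.cast_nonneg _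
    calc _ ≤ C * (5 * N) / L * (C' * (κ * r * L) + C' * (κ * r * L)) := by
          apply mul_le_mul hfac _ _ (by positivity)
          · have h1 : C' * ((H : ℝ) - (0 : ℕ)) ≤ C' * (κ * r * L) := by
              apply mul_le_mul_of_nonneg_left _ hC'.le
              push_cast
              linarith
            have h2 : C' * Real.sqrt H ≤ C' * (κ * r * L) := by
              apply mul_le_mul_of_nonneg_left _ hC'.le
              linarith
            linarith
          · push_cast
            rw [sub_zero]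
            positivity
      _ = _ := by
          field_simp
          ring
  have h1 : ((S.card * r : ℕ) : ℝ) ≤ 10 * C * C' * κ * N * r := by
    refine le_trans ?_ (hsum.trans hfin)
    have h2 := hinj
    rw [Finset.card_sigma] at h2
    exact_mod_cast h2
  push_cast at h1
  exact le_of_mul_le_mul_right h1 hr0

/-- The bound for `p_(N + r)`. -/
theorem pr_le {N r : ℕ} (hN : 81 ≤ N) (hr : r < N) : pr (N + r) ≤ 17 * N * Real.log N := by
  have hN1 : (81 : ℝ) ≤ N := by exact_mod_cast hN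
  have hN0 : (0 : ℝ) < N := by linarith
  have hlN : 1 < Real.log N := by
    rw [Real.lt_log_iff_exp_lt hN0]
    have := Real.exp_one_lt_d9
    linarith
  have h1 := Pool.Agent.Helper30.Gap.nth_lt (N := 2 * N) (by omega)
  have h2 : Nat.nth Nat.Prime (N + r) ≤ Nat.nth Nat.Prime (2 * N - 1) :=
    (Nat.nth_strictMono Nat.infinite_setOfPred_prime).monotone (by omega)
  have h3 : Nat.nth Nat.Prime (N + r) ≤ ⌈4 * ((2 * N : ℕ) : ℝ) * Real.log ((2 * N : ℕ) : ℝ)⌉₊ := by
    omega
  have h4 : pr (N + r) ≤ ⌈4 * ((2 * N : ℕ) : ℝ) * Real.log ((2 * N : ℕ) : ℝ)⌉₊ := by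
    unfold pr
    exact_mod_cast h3
  have h5 : Real.log ((2 * N : ℕ) : ℝ) ≤ 2 * Real.log N := by
    rw [show 2 * Real.log N = Real.log ((N : ℝ) ^ 2) by rw [Real.log_pow]; norm_num]
    apply Real.log_le_log
    · push_cast; linarith
    · push_cast; nlinarith
  have h6 := Nat.ceil_lt_add_one (a := 4 * ((2 * N : ℕ) : ℝ) * Real.log ((2 * N : ℕ) : ℝ)) (by
    have : 0 ≤ Real.log ((2 * N : ℕ) : ℝ) := Real.log_natCast_nonneg _
    positivity)
  have h7 : 4 * ((2 * N : ℕ) : ℝ) * Real.log ((2 * N : ℕ) : ℝ) ≤ 16 * N * Real.log N := by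
    push_cast at h5 ⊢
    nlinarith
  nlinarith

open scoped Classical in
/-- The main counting statement, with all the parameters. -/
theorem count_bad {C κ T ε : ℝ} (hκ : 0 < κ) (hT : 0 < T) (hε : 0 < ε)
    (hsm : ∀ N r : ℕ, 81 ≤ N → 0 < r →
      (((range N).filter (fun n => gm pr r n < κ * Real.log N)).card : ℝ) ≤ C * κ * N)
    {b I N s : ℕ} (hb : 0 < b) (hI : 0 < I) (hs : 0 < s) (hN : 81 ≤ N)
    (hIN : I * (b ^ I * s) < N) :
    ∃ r, s ≤ r ∧ r ≤ b ^ I * s ∧
      (((range N).filter (fun n => ¬ ∃ d : ℝ, 0 < d ∧ ∀ i < b,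
        |pr (n + (i + 1) * r) - pr (n + i * r) - d| ≤ ε * d)).card : ℝ) ≤
        C * κ * N + 17 * N / T + 2 * N / I * (4 * b * (b + 1) * T / (κ * ε ^ 2)) := by
  classical
  have hN1 : (81 : ℝ) ≤ N := by exact_mod_cast hN
  have hN0 : (0 : ℝ) < N := by linarith
  have hb0 : (0 : ℝ) < b := by exact_mod_cast hb
  have hlN : 1 < Real.log N := by
    rw [Real.lt_log_iff_exp_lt hN0]
    have := Real.exp_one_lt_d9
    linarith
  set L : ℝ := Real.log N with hL
  have hL0 : 0 < L := by linarith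
  have hK : 0 < κ * L := by positivity
  obtain ⟨i, hi, hsum⟩ := exists_scale pr_mono hK hb hI hIN.le
  set r : ℕ := b ^ i * s with hr
  have hr0 : 0 < r := by positivity
  have hrI : b * r ≤ b ^ I * s := by
    rw [hr, ← mul_assoc, ← pow_succ']
    exact Nat.mul_le_mul_right _ (Nat.pow_le_pow_right hb hi)
  have hrN : b * r < N := by
    calc b * r ≤ 1 * (b ^ I * s) := by rw [one_mul]; exact hrI
      _ ≤ I * (b ^ I * s) := Nat.mul_le_mul_right _ hI
      _ < N := hIN
  refine ⟨r, ?_, ?_, ?_⟩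
  · calc s = 1 * s := (one_mul s).symm
      _ ≤ r := Nat.mul_le_mul_right _ (Nat.one_le_pow _ _ hb)
  · calc r = 1 * r := (one_mul r).symm
      _ ≤ b * r := Nat.mul_le_mul_right _ hb
      _ ≤ _ := hrI
  -- the three exceptional sets
  set A : Finset ℕ := (range N).filter (fun n => gm pr (b * r) n < κ * L) with hA
  set B : Finset ℕ := (range N).filter (fun n => T * L < gm pr (b * r) n) with hB
  set E : Finset ℕ := (range N).filter (fun n =>
    κ * L * ε ^ 2 / (4 * b * (b + 1) * (T * L)) ≤ Df pr (κ * L) b r n) with hE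
  have hAc : (A.card : ℝ) ≤ C * κ * N := hsm N (b * r) hN (by positivity)
  have hBc : (B.card : ℝ) ≤ 17 * N / T := by
    have h1 := large_card pr_mono (by unfold pr; positivity) (r := b * r) (by positivity) N (T * L)
    have h2 := pr_le hN hrN
    rw [le_div_iff₀ hT]
    have h3 : (B.card : ℝ) * T * L ≤ 17 * N * L := by
      calc (B.card : ℝ) * T * L = B.card * (T * L) := by ring
        _ ≤ _ := h1
        _ ≤ _ := h2
    exact le_of_mul_le_mul_right h3 hL0
  have hcst : κ * L * ε ^ 2 / (4 * b * (b + 1) * (T * L)) =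
      κ * ε ^ 2 / (4 * b * (b + 1) * T) := by
    field_simp
  have hEc : (E.card : ℝ) ≤ 2 * N / I * (4 * b * (b + 1) * T / (κ * ε ^ 2)) := by
    have h1 : (E.card : ℝ) * (κ * ε ^ 2 / (4 * b * (b + 1) * T)) ≤ 2 * N / I := by
      refine le_trans ?_ hsum
      calc _ = ∑ n ∈ E, κ * ε ^ 2 / (4 * b * (b + 1) * T) := by
            rw [Finset.sum_const, nsmul_eq_mul]
        _ ≤ ∑ n ∈ E, Df pr (κ * L) b r n := by
            apply Finset.sum_le_sum
            intro n hn
            rw [hE, Finset.mem_filter, hcst] at hn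
            exact hn.2
        _ ≤ _ := by
            apply Finset.sum_le_sum_of_subset_of_nonneg (Finset.filter_subset _ _)
            intro n _ _
            exact Df_nonneg pr_mono hK hb hr0 n
    have h2 : (E.card : ℝ) = (E.card : ℝ) * (κ * ε ^ 2 / (4 * b * (b + 1) * T)) *
        (4 * b * (b + 1) * T / (κ * ε ^ 2)) := by
      field_simp
    rw [h2]
    exact mul_le_mul_of_nonneg_right h1 (by positivity)
  have hcov : (range N).filter (fun n => ¬ ∃ d : ℝ, 0 < d ∧ ∀ i < b,
      |pr (n + (i + 1) * r) - pr (n + i * r) - d| ≤ ε * d) ⊆ (A ∪ B) ∪ E := by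
    intro n hn
    rw [Finset.mem_filter] at hn
    obtain ⟨hnN, hn2⟩ := hn
    by_contra hc
    rw [Finset.mem_union, Finset.mem_union, not_or, not_or, hA, hB, hE, Finset.mem_filter,
      Finset.mem_filter, Finset.mem_filter, not_and, not_and, not_and] at hc
    obtain ⟨⟨h1, h2⟩, h3⟩ := hc
    have h1' := h1 hnN
    have h2' := h2 hnN
    have h3' := h3 hnN
    push Not at h1' h2'
    apply hn2
    have hr0' : (0 : ℝ) < r := by exact_mod_cast hr0
    refine ⟨gm pr (b * r) n * r, mul_pos (by linarith) hr0', ?_⟩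
    intro j hj
    by_contra hcc
    push Not at hcc
    apply h3'
    apply Df_large pr_mono hK hε.le hb hr0 n h1' h2' hj
    have h4 : pr (n + (j + 1) * r) - pr (n + j * r) - gm pr (b * r) n * r =
        (gm pr r (n + j * r) - gm pr (b * r) n) * r := by
      have h5 : gm pr r (n + j * r) * r = pr (n + (j + 1) * r) - pr (n + j * r) := by
        unfold gm
        rw [div_mul_cancel₀ _ hr0'.ne']
        congr 2
        ring
      rw [sub_mul, h5]
    rw [h4, abs_mul, abs_of_pos hr0'] at hcc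
    have h6 : ε * gm pr (b * r) n * r < |gm pr r (n + j * r) - gm pr (b * r) n| * r := by
      linarith
    exact lt_of_mul_lt_mul_right h6 hr0'.le
  have h1 := (Finset.card_le_card hcov).trans ((Finset.card_union_le _ _).trans
    (Nat.add_le_add_right (Finset.card_union_le _ _) _))
  have h2 : (((range N).filter (fun n => ¬ ∃ d : ℝ, 0 < d ∧ ∀ i < b,
      |pr (n + (i + 1) * r) - pr (n + i * r) - d| ≤ ε * d)).card : ℝ) ≤
      (A.card : ℝ) + B.card + E.card := by exact_mod_cast h1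
  linarith

open scoped Classical in
theorem main : ∃ C : ℝ, 0 < C ∧ ∀ k : ℕ, 1 ≤ k → ∀ ε δ : ℝ, 0 < ε → ε ≤ 1 → 0 < δ → δ ≤ 1 →
    ∀ N s : ℕ, 1 ≤ s → s * Real.exp (C * k ^ 3 / (ε ^ 2 * δ ^ 3)) ≤ N →
    ∃ r : ℕ, s ≤ r ∧ r ≤ s * Real.exp (C * k ^ 3 / (ε ^ 2 * δ ^ 3)) ∧
      (((range N).filter (fun n => ¬ ∃ d : ℝ, 0 < d ∧ ∀ i < k,
        |pr (n + (i + 1) * r) - pr (n + i * r) - d| ≤ ε * d)).card : ℝ) ≤ δ * N := by
  classical
  obtain ⟨C, hC, hsm⟩ := small_card
  refine ⟨4 * (22032 * C + 2), by positivity, ?_⟩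
  intro k hk ε δ hε hε1 hδ hδ1 N s hs hN
  have hk1 : (1 : ℝ) ≤ k := by exact_mod_cast hk
  set Q : ℝ := 1 / (ε ^ 2 * δ ^ 3) with hQ
  have hQ1 : 1 ≤ Q := by
    rw [hQ, le_div_iff₀ (by positivity), one_mul]
    have h1 : ε ^ 2 ≤ 1 := pow_le_one₀ hε.le hε1
    have h2 : δ ^ 3 ≤ 1 := pow_le_one₀ hδ.le hδ1
    have h3 : 0 < δ ^ 3 := by positivity
    nlinarith
  have hW : 4 * (22032 * C + 2) * (k : ℝ) ^ 3 / (ε ^ 2 * δ ^ 3) =
      4 * (22032 * C + 2) * (k : ℝ) ^ 3 * Q := by
    rw [hQ]; ring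
  rw [hW] at hN ⊢
  set W : ℝ := Real.exp (4 * (22032 * C + 2) * (k : ℝ) ^ 3 * Q) with hWdef
  set b : ℕ := k + 1 with hb
  have hbr : (b : ℝ) = k + 1 := by rw [hb]; push_cast; ring
  set I : ℕ := ⌈3672 * C * b * (b + 1) * Q⌉₊ with hI
  have hIlow : 3672 * C * b * (b + 1) * Q ≤ I := Nat.le_ceil _
  have hIpos' : 0 < 3672 * C * b * (b + 1) * Q := by
    have : (0 : ℝ) < b := by rw [hbr]; positivity
    positivity
  have hIpos : (0 : ℝ) < I := by linarith
  have hI0 : 0 < I := by exact_mod_cast hIpos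
  have hkk : (k : ℝ) ^ 2 = k * k := by ring
  have hIup : (I : ℝ) ≤ (22032 * C + 1) * k ^ 2 * Q := by
    have h1 := Nat.ceil_lt_add_one hIpos'.le
    have h2 : (b : ℝ) * (b + 1) ≤ 6 * k ^ 2 := by
      rw [hbr]; nlinarith
    have h3 : 3672 * C * b * (b + 1) * Q ≤ 22032 * C * k ^ 2 * Q := by
      have : 3672 * C * Q * (b * (b + 1)) ≤ 3672 * C * Q * (6 * k ^ 2) :=
        mul_le_mul_of_nonneg_left h2 (by positivity)
      linarith
    have h4 : 1 ≤ (k : ℝ) ^ 2 * Q := by nlinarith
    linarith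
  -- the size of the largest scale
  have hbI : (I : ℝ) * (b ^ I) < W := by
    have h1 : (I : ℝ) < 2 ^ I := by exact_mod_cast Nat.lt_two_pow_self
    have h2 : (2 : ℝ) ^ I ≤ (b : ℝ) ^ I := by
      apply pow_le_pow_left₀ (by norm_num)
      rw [hbr]; linarith
    have h3 : (b : ℝ) ≤ Real.exp (2 * k - 1) := by
      have := Real.add_one_le_exp (2 * (k : ℝ) - 1)
      rw [hbr]
      linarith
    have h4 : (b : ℝ) ^ I ≤ Real.exp (I * (2 * k - 1)) := by
      rw [Real.exp_nat_mul]
      apply pow_le_pow_left₀ _ h3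
      rw [hbr]; positivity
    have h5 : (I : ℝ) * (b ^ I) < Real.exp (I * (2 * k - 1)) * Real.exp (I * (2 * k - 1)) := by
      have h6 : (0 : ℝ) < (b : ℝ) ^ I := by rw [hbr]; positivity
      calc (I : ℝ) * (b ^ I) < (b : ℝ) ^ I * (b : ℝ) ^ I := by
            apply mul_lt_mul_of_pos_right _ h6
            linarith
        _ ≤ _ := mul_le_mul h4 h4 h6.le (Real.exp_pos _).le
    refine h5.trans_le ?_
    rw [← Real.exp_add, hWdef]
    apply Real.exp_le_exp.mpr
    have h7 : (I : ℝ) * (2 * k - 1) ≤ (22032 * C + 1) * k ^ 2 * Q * (2 * k) := by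
      apply mul_le_mul hIup (by linarith) (by linarith)
      positivity
    have h8 : 0 ≤ (k : ℝ) ^ 3 * Q := by positivity
    nlinarith
  have hs1 : (1 : ℝ) ≤ s := by exact_mod_cast hs
  have hIN : I * (b ^ I * s) < N := by
    have h1 : (I : ℝ) * (b ^ I * s) < N := by
      calc (I : ℝ) * (b ^ I * s) = s * (I * b ^ I) := by ring
        _ < s * W := mul_lt_mul_of_pos_left hbI (by linarith)
        _ ≤ N := hN
    exact_mod_cast h1
  have hN81 : 81 ≤ N := by
    have h1 : (81 : ℝ) ≤ W := by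
      have h2 : (8 : ℝ) ≤ 4 * (22032 * C + 2) * (k : ℝ) ^ 3 * Q := by
        have h3 : 1 ≤ (k : ℝ) ^ 3 * Q := by
          have : 1 ≤ (k : ℝ) ^ 3 := one_le_pow₀ hk1
          nlinarith
        nlinarith
      have h3 : Real.exp 8 ≤ W := Real.exp_le_exp.mpr h2
      have h4 : Real.exp 8 = Real.exp 1 ^ 8 := by
        rw [← Real.exp_nat_mul]; norm_num
      have h5 : (2 : ℝ) ^ 8 ≤ Real.exp 1 ^ 8 := by
        apply pow_le_pow_left₀ (by norm_num)
        have := Real.exp_one_gt_d9
        linarith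
      rw [← h4] at h5
      norm_num at h5
      linarith
    have h2 : (81 : ℝ) ≤ N := by nlinarith
    exact_mod_cast h2
  set κ : ℝ := δ / (3 * C) with hκ
  set T : ℝ := 51 / δ with hT
  have hκ0 : 0 < κ := by positivity
  have hT0 : 0 < T := by positivity
  have hb0 : 0 < b := by omega
  obtain ⟨r, hr1, hr2, hr3⟩ := count_bad (C := C) (κ := κ) (T := T) (ε := ε) hκ0 hT0 hε
    (hsm κ hκ0) (b := b) (I := I) (N := N) (s := s) hb0 hI0 hs hN81 hIN
  refine ⟨r, hr1, ?_, ?_⟩
  · have h1 : (r : ℝ) ≤ b ^ I * s := by exact_mod_cast hr2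
    have h2 : (1 : ℝ) ≤ I := by exact_mod_cast hI0
    have h3 : (0 : ℝ) ≤ (b : ℝ) ^ I := by positivity
    have h4 : (b : ℝ) ^ I ≤ W := by nlinarith
    nlinarith
  · have hN0 : (0 : ℝ) < N := by
      have : (81 : ℝ) ≤ N := by exact_mod_cast hN81
      linarith
    have h0 : (((range N).filter (fun n => ¬ ∃ d : ℝ, 0 < d ∧ ∀ i < k,
        |pr (n + (i + 1) * r) - pr (n + i * r) - d| ≤ ε * d)).card : ℝ) ≤
        (((range N).filter (fun n => ¬ ∃ d : ℝ, 0 < d ∧ ∀ i < b,
        |pr (n + (i + 1) * r) - pr (n + i * r) - d| ≤ ε * d)).card : ℝ) := by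
      have h1 : (range N).filter (fun n => ¬ ∃ d : ℝ, 0 < d ∧ ∀ i < k,
          |pr (n + (i + 1) * r) - pr (n + i * r) - d| ≤ ε * d) ⊆
          (range N).filter (fun n => ¬ ∃ d : ℝ, 0 < d ∧ ∀ i < b,
          |pr (n + (i + 1) * r) - pr (n + i * r) - d| ≤ ε * d) := by
        intro n hn
        rw [Finset.mem_filter] at hn ⊢
        refine ⟨hn.1, fun h => hn.2 ?_⟩
        obtain ⟨d, hd, hd2⟩ := h
        exact ⟨d, hd, fun i hi => hd2 i (by omega)⟩
      exact_mod_cast Finset.card_le_card h1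
    refine h0.trans (hr3.trans ?_)
    have h1 : C * κ * N = δ / 3 * N := by
      rw [hκ]; field_simp
    have h2 : 17 * N / T = δ / 3 * N := by
      rw [hT]; field_simp; norm_num
    have hbp : (0 : ℝ) < b := by exact_mod_cast hb0
    have h3 : 2 * (N : ℝ) / I * (4 * b * (b + 1) * T / (κ * ε ^ 2)) ≤ δ / 3 * N := by
      have h4 : 2 * (N : ℝ) / I * (4 * b * (b + 1) * T / (κ * ε ^ 2)) =
          (3672 * C * b * (b + 1) * Q) / I * (δ / 3 * N) := by
        rw [hκ, hT, hQ]
        field_simp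
        norm_num
      rw [h4]
      have h5 : (3672 * C * b * (b + 1) * Q) / I ≤ 1 := by
        rw [div_le_one hIpos]
        exact hIlow
      have h6 : 0 ≤ δ / 3 * (N : ℝ) := by positivity
      nlinarith
    linarith

end Pool.Agent.Helper99.LR
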