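import Pool.Agent.Helper99.LR.Pick
import Pool.Agent.Helper99.LR.Main

/-!
# From a window with few close pairs to a local progression
-/

set_option autoImplicit false

open Finset

namespace Pool.Agent.Helper99.LR

/-- The `m`-th prime of the window which begins at `n`. -/
noncomputable def wp (n m : ℕ) : ℕ := Nat.nth Nat.Prime (Nat.count Nat.Prime n + m)

theorem wp_lt {n m m' : ℕ} (h : m < m') : wp n m < wp n m' := by
  unfold wp
  exact pr_lt (by omega)

theorem wp_le {n m m' : ℕ} (h : m ≤ m') : wp n m ≤ wp n m' := by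
  unfold wp
  exact (Nat.nth_strictMono Nat.infinite_setOfPred_prime).monotone (by omega)

theorem wp_prime (n m : ℕ) : (wp n m).Prime := Nat.prime_nth_prime _

theorem wp_ge (n m : ℕ) : n ≤ wp n m := by
  unfold wp
  by_contra hc
  push Not at hc
  have h1 := Nat.count_monotone Nat.Prime (show Nat.nth Nat.Prime
    (Nat.count Nat.Prime n + m) + 1 ≤ n by omega)
  rw [Nat.count_succ, Nat.count_nth_of_infinite Nat.infinite_setOfPred_prime,
    if_pos (Nat.prime_nth_prime _)] at h1
  omega

theorem wp_window {n m H : ℕ}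
    (hm : m < ((range (H + 1)).filter (fun k => (n + k).Prime)).card) : wp n m ≤ n + H := by
  have h1 : Nat.count Nat.Prime (n + (H + 1)) =
      Nat.count Nat.Prime n + ((range (H + 1)).filter (fun k => (n + k).Prime)).card := by
    rw [Nat.count_add, Nat.count_eq_card_filter_range (fun k => Nat.Prime (n + k))]
  have h2 : wp n m < n + (H + 1) := by
    unfold wp
    apply Nat.nth_lt_of_lt_count
    omega
  omega

/-- Short blocks give close pairs. -/
theorem small_pairs {M κ0 Q E n : ℕ} (hM : 0 < M) (hκ : 0 < κ0) (hκE : κ0 ≤ E)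
    (ho : ∀ j ∈ (range (Q * M * E + 1)).filter
      (fun j => ∀ a : Fin M × Fin κ0, Q * (a.1.val * E + a.2.val) ≠ j), ¬ (n + j).Prime)
    {r N' : ℕ} (hr : 0 < r)
    (hN' : N' + r ≤ ((range (Q * M * E + 1)).filter (fun k => (n + k).Prime)).card) :
    (((range N').filter (fun m => gm (fun i => (wp n i : ℝ)) r m < (Q * E : ℕ))).card : ℝ) * r ≤
      prs (fun a : Fin M × Fin κ0 => Q * (a.1.val * E + a.2.val)) (r + 1) n := by
  classical
  set h : Fin M × Fin κ0 → ℕ := fun a => Q * (a.1.val * E + a.2.val) with hh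
  have hr0 : (0 : ℝ) < r := by exact_mod_cast hr
  have hex : ∀ m : ℕ, ∃ a : Fin M × Fin κ0,
      m < ((range (Q * M * E + 1)).filter (fun k => (n + k).Prime)).card → n + h a = wp n m := by
    intro m
    by_cases hm : m < ((range (Q * M * E + 1)).filter (fun k => (n + k).Prime)).card
    · have h1 := wp_window hm
      have h2 := wp_ge n m
      by_contra hcon
      push Not at hcon
      refine ho (wp n m - n) ?_ (by
        have : n + (wp n m - n) = wp n m := by omega
        rw [this]
        exact wp_prime n m)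
      rw [Finset.mem_filter, Finset.mem_range]
      refine ⟨by omega, fun a ha => ?_⟩
      have h3 := (hcon a).2
      apply h3
      have h4 : h a = wp n m - n := ha
      omega
    · exact ⟨(⟨0, hM⟩, ⟨0, hκ⟩), fun h => absurd h hm⟩
  choose f hf using hex
  set S : Finset ℕ := (range N').filter (fun m => gm (fun i => (wp n i : ℝ)) r m < (Q * E : ℕ))
    with hS
  have hprs : prs h (r + 1) n = (((Zt M κ0 (r + 1)).filter (fun z =>
      (n + h z.1).Prime ∧ (n + h z.2).Prime)).card : ℝ) := by
    unfold prs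
    rw [Finset.card_filter]
    push_cast
    rfl
  rw [hprs]
  have h1 : S.card * r ≤ ((Zt M κ0 (r + 1)).filter (fun z =>
      (n + h z.1).Prime ∧ (n + h z.2).Prime)).card := by
    have h2 : S.card * r = (S ×ˢ Icc 1 r).card := by
      rw [Finset.card_product, Nat.card_Icc, Nat.add_sub_cancel]
    rw [h2]
    apply Finset.card_le_card_of_injOn (fun z : ℕ × ℕ => (f z.1, f (z.1 + z.2)))
    · rintro ⟨m, j⟩ hz
      rw [Finset.mem_coe, Finset.mem_product, hS, Finset.mem_filter, Finset.mem_range,
        Finset.mem_Icc] at hz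
      obtain ⟨⟨hm, hgm⟩, hj1, hjr⟩ := hz
      simp only at hm hgm hj1 hjr
      have e1 := hf m (by omega)
      have e2 := hf (m + j) (by omega)
      have e3 : wp n m < wp n (m + j) := wp_lt (by omega)
      have e4 : wp n (m + j) ≤ wp n (m + r) := wp_le (by omega)
      have e5 : wp n (m + r) < wp n m + Q * E * r := by
        unfold gm at hgm
        rw [div_lt_iff₀ hr0] at hgm
        have : (wp n (m + r) : ℝ) < ((wp n m + Q * E * r : ℕ) : ℝ) := by
          push_cast at hgm ⊢
          linarith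
        exact_mod_cast this
      have e6 : h (f m) < h (f (m + j)) := by omega
      have e7 : h (f (m + j)) < h (f m) + Q * E * r := by omega
      simp only [hh] at e6 e7
      have e8 : (f m).1.val * E + (f m).2.val < (f (m + j)).1.val * E + (f (m + j)).2.val :=
        Nat.lt_of_mul_lt_mul_left e6
      have e9 : (f (m + j)).1.val * E + (f (m + j)).2.val <
          (f m).1.val * E + (f m).2.val + E * r := by
        apply Nat.lt_of_mul_lt_mul_left (a := Q)
        calc _ < _ := e7
          _ = _ := by ring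
      have hb1 := (f m).2.isLt
      have hb2 := (f (m + j)).2.isLt
      have e10 : (f m).1.val ≤ (f (m + j)).1.val := by
        by_contra hc
        push Not at hc
        have e11 : ((f (m + j)).1.val + 1) * E ≤ (f m).1.val * E := Nat.mul_le_mul_right _ hc
        rw [add_mul, one_mul] at e11
        omega
      have e12 : (f (m + j)).1.val ≤ (f m).1.val + (r + 1) := by
        by_contra hc
        push Not at hc
        have e11 : ((f m).1.val + (r + 1) + 1) * E ≤ (f (m + j)).1.val * E :=
          Nat.mul_le_mul_right _ hc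
        have e13 : ((f m).1.val + (r + 1) + 1) * E = (f m).1.val * E + E * r + 2 * E := by ring
        omega
      rw [Finset.mem_coe, Finset.mem_filter, Zt, Finset.mem_filter]
      simp only
      refine ⟨⟨Finset.mem_univ _, ?_, by omega, e12⟩, ?_, ?_⟩
      · intro he
        rw [he] at e1
        omega
      · rw [e1]; exact wp_prime _ _
      · rw [e2]; exact wp_prime _ _
    · rintro ⟨m, j⟩ hz ⟨m', j'⟩ hz' heq
      rw [Finset.mem_coe, Finset.mem_product, hS, Finset.mem_filter, Finset.mem_range,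
        Finset.mem_Icc] at hz hz'
      obtain ⟨⟨hm, _⟩, hj1, hjr⟩ := hz
      obtain ⟨⟨hm', _⟩, hj1', hjr'⟩ := hz'
      simp only [Prod.mk.injEq] at heq hm hj1 hjr hm' hj1' hjr'
      obtain ⟨q1, q2⟩ := heq
      have e1 := hf m (by omega)
      have e2 := hf (m + j) (by omega)
      have e1' := hf m' (by omega)
      have e2' := hf (m' + j') (by omega)
      rw [q1, e1'] at e1
      rw [q2, e2'] at e2
      have q3 : m = m' := by
        rcases Nat.lt_trichotomy m m' with h3 | h3 | h3
        · have := wp_lt (n := n) h3; omega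
        · exact h3
        · have := wp_lt (n := n) h3; omega
      have q4 : m + j = m' + j' := by
        rcases Nat.lt_trichotomy (m + j) (m' + j') with h3 | h3 | h3
        · have := wp_lt (n := n) h3; omega
        · exact h3
        · have := wp_lt (n := n) h3; omega
      rw [Prod.mk.injEq]
      exact ⟨q3, by omega⟩
  exact_mod_cast h1

theorem cnt_window {M κ0 Q E n : ℕ} (hQ : 0 < Q) (hκE : κ0 ≤ E) :
    cnt (fun a : Fin M × Fin κ0 => Q * (a.1.val * E + a.2.val)) n ≤
      (((range (Q * M * E + 1)).filter (fun k => (n + k).Prime)).card : ℝ) := by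
  classical
  set h : Fin M × Fin κ0 → ℕ := fun a => Q * (a.1.val * E + a.2.val) with hh
  have h1 : cnt h n = ((univ.filter (fun a => (n + h a).Prime)).card : ℝ) := by
    unfold cnt
    rw [Finset.card_filter]
    push_cast
    rfl
  rw [h1]
  have h2 : (univ.filter (fun a => (n + h a).Prime)).card ≤
      ((range (Q * M * E + 1)).filter (fun k => (n + k).Prime)).card := by
    apply Finset.card_le_card_of_injOn h
    · intro a ha
      rw [Finset.mem_coe, Finset.mem_filter] at ha
      rw [Finset.mem_coe, Finset.mem_filter, Finset.mem_range]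
      refine ⟨?_, ha.2⟩
      have h1 := a.1.isLt
      have h2 := a.2.isLt
      have h3 : (a.1.val + 1) * E ≤ M * E := Nat.mul_le_mul_right _ h1
      have h4 : h a ≤ Q * (M * E) := by
        apply Nat.mul_le_mul_left
        rw [add_mul, one_mul] at h3
        omega
      have h5 : Q * (M * E) = Q * M * E := by ring
      omega
    · intro a ha c hc heq
      have h3 : a.1.val * E + a.2.val = c.1.val * E + c.2.val := Nat.eq_of_mul_eq_mul_left hQ heq
      have ha2 := a.2.isLt
      have hc2 := c.2.isLt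
      have h4 : a.1.val = c.1.val := by
        rcases Nat.lt_trichotomy a.1.val c.1.val with h5 | h5 | h5
        · have h6 : (a.1.val + 1) * E ≤ c.1.val * E := Nat.mul_le_mul_right _ h5
          rw [add_mul, one_mul] at h6
          omega
        · exact h5
        · have h6 : (c.1.val + 1) * E ≤ a.1.val * E := Nat.mul_le_mul_right _ h5
          rw [add_mul, one_mul] at h6
          omega
      have h5 : a.2.val = c.2.val := by
        rw [h4] at h3
        omega
      exact Prod.ext (Fin.ext h4) (Fin.ext h5)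
  exact_mod_cast h2

/-- A local progression in a window. -/
theorem window {M κ0 Q E n : ℕ} (hM : 0 < M) (hκ : 0 < κ0) (hQ : 0 < Q) (hκE : κ0 ≤ E)
    (ho : ∀ j ∈ (range (Q * M * E + 1)).filter
      (fun j => ∀ a : Fin M × Fin κ0, Q * (a.1.val * E + a.2.val) ≠ j), ¬ (n + j).Prime)
    {b I : ℕ} (hb : 0 < b) (hI : 0 < I) {lam T0 ε : ℝ} (hlam : 0 < lam) (hT0 : 0 < T0)
    (hε : 0 < ε)
    (hc : lam * M ≤ cnt (fun a : Fin M × Fin κ0 => Q * (a.1.val * E + a.2.val)) n)
    (hp : ∑ i ∈ range I, prs (fun a : Fin M × Fin κ0 => Q * (a.1.val * E + a.2.val))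
      (b * b ^ i + 1) n / ((b * b ^ i : ℕ) : ℝ) ≤
        I * cnt (fun a : Fin M × Fin κ0 => Q * (a.1.val * E + a.2.val)) n / 8)
    (hlM : 2 * ((I + 1) * (b : ℝ) ^ I) + 2 ≤ lam * M)
    (hT : 8 ≤ lam * T0) (hd : 32 * b * (b + 1) * T0 / ε ^ 2 ≤ I) :
    ∃ i < I, ∃ m : ℕ, ∃ d : ℝ, (Q * E : ℕ) ≤ d ∧ d ≤ (b : ℝ) ^ i * (T0 * (Q * E : ℕ)) ∧
      wp n (m + b * b ^ i) ≤ n + Q * M * E ∧
      ∀ j < b, |(wp n (m + (j + 1) * b ^ i) : ℝ) - wp n (m + j * b ^ i) - d| ≤ ε * d := by
  classical
  set Nn : ℕ := ((range (Q * M * E + 1)).filter (fun k => (n + k).Prime)).card with hNn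
  have hcN := cnt_window (M := M) (n := n) hQ hκE
  rw [← hNn] at hcN
  set h : Fin M × Fin κ0 → ℕ := fun a => Q * (a.1.val * E + a.2.val) with hh
  have hE0 : 0 < E := by omega
  have hQE : (0 : ℝ) < (Q * E : ℕ) := by exact_mod_cast Nat.mul_pos hQ hE0
  have hb0 : (0 : ℝ) < b := by exact_mod_cast hb
  have hI0 : (0 : ℝ) < I := by exact_mod_cast hI
  have hMr : (0 : ℝ) < M := by exact_mod_cast hM
  have hNlow : 2 * ((I + 1) * (b : ℝ) ^ I) + 2 ≤ Nn := by linarith
  have hNlow' : 2 * ((I + 1) * b ^ I) + 2 ≤ Nn := by exact_mod_cast hNlow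
  obtain ⟨N', hN'⟩ : ∃ N' : ℕ, N' + b ^ I + 1 = Nn := ⟨Nn - b ^ I - 1, by
    have : (I + 1) * b ^ I = I * b ^ I + b ^ I := by ring
    omega⟩
  have hN'2 : Nn ≤ 2 * N' := by
    have : (I + 1) * b ^ I = I * b ^ I + b ^ I := by ring
    have h1 : 1 * b ^ I ≤ I * b ^ I := Nat.mul_le_mul_right _ hI
    omega
  have hIN' : I * b ^ I ≤ N' := by
    have : (I + 1) * b ^ I = I * b ^ I + b ^ I := by ring
    omega
  have hN'2r : (Nn : ℝ) ≤ 2 * N' := by exact_mod_cast hN'2
  have hpow : ∀ i < I, b * b ^ i ≤ b ^ I := by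
    intro i hi
    rw [← pow_succ']
    exact Nat.pow_le_pow_right hb hi
  have hwp : Monotone (fun i => (wp n i : ℝ)) := fun i j hij => by
    change (wp n i : ℝ) ≤ (wp n j : ℝ)
    exact_mod_cast wp_le hij
  obtain ⟨i, hi, m, hm, h1, h2, h3⟩ := det (p := fun i => (wp n i : ℝ)) hwp
    (K := ((Q * E : ℕ) : ℝ)) (T := T0 * (Q * E : ℕ)) (ε := ε) (Len := ((Q * M * E : ℕ) : ℝ))
    hQE (by positivity) hε hb hI hIN' (by
      have e1 := wp_window (n := n) (m := N' + b ^ I) (H := Q * M * E) (by omega)
      have e2 := wp_ge n 0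
      have e3 : (wp n (N' + b ^ I) : ℝ) ≤ (n : ℝ) + (Q * M * E : ℕ) := by exact_mod_cast e1
      have e4 : (n : ℝ) ≤ wp n 0 := by exact_mod_cast e2
      linarith) (by
      have e1 : ∀ i ∈ range I, (((range N').filter (fun m =>
          gm (fun i => (wp n i : ℝ)) (b * b ^ i) m < (Q * E : ℕ))).card : ℝ) ≤
          prs h (b * b ^ i + 1) n / ((b * b ^ i : ℕ) : ℝ) := by
        intro i hi
        rw [Finset.mem_range] at hi
        have e2 : 0 < b * b ^ i := by positivity
        have e3 := hpow i hi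
        rw [le_div_iff₀ (by exact_mod_cast e2)]
        exact small_pairs hM hκ hκE ho e2 (by omega)
      refine (Finset.sum_le_sum e1).trans (hp.trans ?_)
      have e2 : (I : ℝ) * cnt h n ≤ I * Nn := mul_le_mul_of_nonneg_left hcN hI0.le
      have e3 : (I : ℝ) * Nn ≤ I * (2 * N') := mul_le_mul_of_nonneg_left hN'2r hI0.le
      linarith) (by
      have e1 : (M : ℝ) * lam ≤ 2 * N' := by linarith
      have e2 : (8 : ℝ) * M ≤ 2 * N' * T0 := by
        calc (8 : ℝ) * M ≤ lam * T0 * M := mul_le_mul_of_nonneg_right hT hMr.le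
          _ = M * lam * T0 := by ring
          _ ≤ _ := mul_le_mul_of_nonneg_right e1 hT0.le
      have e3 : ((Q * M * E : ℕ) : ℝ) = M * (Q * E : ℕ) := by push_cast; ring
      rw [e3]
      calc (M : ℝ) * (Q * E : ℕ) ≤ (N' / 4 * T0) * (Q * E : ℕ) :=
            mul_le_mul_of_nonneg_right (by linarith) hQE.le
        _ = _ := by ring) (by
      have e1 : 2 * (4 * (b : ℝ) * (b + 1) * (T0 * (Q * E : ℕ)) / ((Q * E : ℕ) * ε ^ 2)) =
          (32 * b * (b + 1) * T0 / ε ^ 2) / 4 := by
        field_simp
        ring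
      rw [e1]
      linarith)
  have hbi : (1 : ℝ) ≤ (b : ℝ) ^ i := one_le_pow₀ (by exact_mod_cast hb)
  set g : ℝ := gm (fun i => (wp n i : ℝ)) (b * b ^ i) m with hg
  refine ⟨i, hi, m, (b : ℝ) ^ i * g, ?_, ?_, ?_, ?_⟩
  · nlinarith
  · exact mul_le_mul_of_nonneg_left h2 (by positivity)
  · have e3 := hpow i hi
    exact wp_window (by omega)
  · intro j hj
    have h4 := h3 j hj
    have hbi0 : (0 : ℝ) < (b : ℝ) ^ i := by positivity
    have h5 : (wp n (m + (j + 1) * b ^ i) : ℝ) - wp n (m + j * b ^ i) - (b : ℝ) ^ i * g =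
        (gm (fun i => (wp n i : ℝ)) (b ^ i) (m + j * b ^ i) - g) * (b : ℝ) ^ i := by
      unfold gm
      have e1 : m + j * b ^ i + b ^ i = m + (j + 1) * b ^ i := by ring
      rw [e1]
      push_cast
      field_simp
    rw [h5, abs_mul, abs_of_pos hbi0]
    calc _ ≤ ε * g * (b : ℝ) ^ i := mul_le_mul_of_nonneg_right h4 hbi0.le
      _ = _ := by ring

end Pool.Agent.Helper99.LR
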